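import Pool.Agent.W728.LH.Stms

/-!
# Project LH: `P[X_0]` is defined when `P` is finite
-/

set_option autoImplicit false

namespace Pool.Agent.W762.LH

open MvPolynomial Pool.Agent.W728.LH

section
variable {P : Type} [Field P] {m : ℕ} (i : Fin m)

/-- evaluation of all variables at a constant -/
noncomputable def evc (c : P) : MvPolynomial (Fin m) P →+* P := MvPolynomial.eval fun _ => c

theorem evc_X (c : P) : evc c (X i : MvPolynomial (Fin m) P) = c := by simp [evc]

theorem not_unit_sub : ¬ IsUnit ((X i : MvPolynomial (Fin m) P) - 1) := by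
  intro h
  have h1 := h.map (evc (m := m) (1 : P))
  rw [map_sub, evc_X, map_one, sub_self] at h1
  exact not_isUnit_zero h1

theorem not_dvd_sub : ¬ (X i : MvPolynomial (Fin m) P) ∣ X i - 1 := by
  intro h
  have h1 := map_dvd (evc (m := m) (0 : P)) h
  rw [map_sub, evc_X, map_one, zero_sub, zero_dvd_iff] at h1
  exact neg_ne_zero.2 one_ne_zero h1

theorem pw_iff (u : MvPolynomial (Fin m) P) : Pw (X i) u ↔ ∃ n : ℕ, u = X i ^ n := by
  constructor
  · rintro ⟨h1, h2⟩
    have hu : u ≠ 0 := by
      rintro rfl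
      rcases h1 (X i - 1) (dvd_zero _) with h | h
      · exact not_unit_sub i h
      · exact not_dvd_sub i h
    obtain ⟨n, a, ha, hua⟩ := WfDvdMonoid.max_power_factor hu
      (X_prime (R := P) (i := i)).irreducible
    have hau : IsUnit a := (h1 a ⟨X i ^ n, by rw [hua, mul_comm]⟩).resolve_right ha
    obtain ⟨c, -, hc⟩ := MvPolynomial.isUnit_iff_eq_C_of_isReduced.1 hau
    have h3 := map_dvd (evc (m := m) (1 : P)) h2
    rw [hua, hc, map_sub, evc_X, map_one, sub_self, zero_dvd_iff, map_sub, map_mul, map_pow,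
      evc_X, one_pow, one_mul, map_one] at h3
    have h4 : c = 1 := by
      have : evc (m := m) (1 : P) (C c) = c := by simp [evc]
      rw [this] at h3
      exact sub_eq_zero.1 h3
    exact ⟨n, by rw [hua, hc, h4, map_one, mul_one]⟩
  · rintro ⟨n, rfl⟩
    refine ⟨fun v hv => ?_, ?_⟩
    · obtain ⟨j, -, hj⟩ := (dvd_prime_pow (X_prime (R := P) (i := i)) n).1 hv
      rcases Nat.eq_zero_or_pos j with h | h
      · left
        rw [h, pow_zero] at hj
        exact associated_one_iff_isUnit.1 hj
      · right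
        exact (dvd_pow_self _ h.ne').trans hj.symm.dvd
    · have := sub_dvd_pow_sub_pow (X i : MvPolynomial (Fin m) P) 1 n
      rwa [one_pow] at this

end

/-- a polynomial over a finite field divides some `T ^ a * (T ^ b - 1)` -/
theorem exists_dvd {P : Type} [Field P] [Finite P] {p : Polynomial P} (hp : p ≠ 0) :
    ∃ a b : ℕ, 0 < b ∧ p ∣ Polynomial.X ^ a * (Polynomial.X ^ b - 1) := by
  haveI : Module.Finite P (AdjoinRoot p) := (AdjoinRoot.powerBasis hp).finite
  haveI : Finite (AdjoinRoot p) := Module.finite_of_finite P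
  obtain ⟨s, t, hst, he⟩ := Finite.exists_ne_map_eq_of_infinite
    (fun n : ℕ => (AdjoinRoot.root p) ^ n)
  have key : ∀ s t : ℕ, s < t → (AdjoinRoot.root p) ^ s = (AdjoinRoot.root p) ^ t →
      ∃ a b : ℕ, 0 < b ∧ p ∣ Polynomial.X ^ a * (Polynomial.X ^ b - 1) := by
    intro s t hst he
    refine ⟨s, t - s, by omega, ?_⟩
    rw [← AdjoinRoot.mk_eq_zero, map_mul, map_sub, map_pow, map_pow, map_one, AdjoinRoot.mk_X,
      mul_sub, mul_one, ← pow_add, Nat.add_sub_cancel' hst.le, he, sub_self]
  rcases lt_or_gt_of_ne hst with h | h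
  · exact key s t h he
  · exact key t s h he.symm

theorem t_FIN : FIN_stmt := by
  intro P _ _ m hm g
  set i : Fin m := ⟨0, hm⟩ with hi
  have hset : {j : Fin m | j.val ≤ 0} = {i} := by
    ext j
    simp only [Set.mem_ofPred_eq, Nat.le_zero, Set.mem_singleton_iff, hi]
    rw [Fin.ext_iff]
  rw [hset]
  have hX : (X i : MvPolynomial (Fin m) P) ∈ supported P {i} :=
    Algebra.subset_adjoin ⟨i, rfl, rfl⟩
  constructor
  · rintro (rfl | ⟨u, w, hu, hw, hw1, hd⟩)
    · exact Subalgebra.zero_mem _
    · obtain ⟨a, rfl⟩ := (pw_iff i u).1 hu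
      obtain ⟨b, rfl⟩ := (pw_iff i w).1 hw
      obtain ⟨k, hk⟩ := hd
      have hf : (X i : MvPolynomial (Fin m) P) ^ a * (X i ^ b - 1) ∈ supported P {i} :=
        Subalgebra.mul_mem _ (Subalgebra.pow_mem _ hX a)
          (Subalgebra.sub_mem _ (Subalgebra.pow_mem _ hX b) (Subalgebra.one_mem _))
      have hf0 : (X i : MvPolynomial (Fin m) P) ^ a * (X i ^ b - 1) ≠ 0 :=
        mul_ne_zero (pow_ne_zero _ (X_prime (R := P) (i := i)).ne_zero) (sub_ne_zero.2 hw1)
      rw [mem_supported] at hf ⊢
      intro j hj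
      apply hf
      have hg0 : g ≠ 0 := by
        rintro rfl
        rw [zero_mul] at hk
        exact hf0 hk
      have hk0 : k ≠ 0 := by
        rintro rfl
        rw [mul_zero] at hk
        exact hf0 hk
      have hj' : j ∈ g.vars := hj
      show j ∈ ((X i : MvPolynomial (Fin m) P) ^ a * (X i ^ b - 1)).vars
      rw [mem_vars_iff_degreeOf_ne_zero] at hj' ⊢
      rw [hk, degreeOf_mul_eq hg0 hk0]
      omega
  · intro hg
    by_cases hg0 : g = 0
    · exact Or.inl hg0
    right
    have h1 : g ∈ Algebra.adjoin P {(X i : MvPolynomial (Fin m) P)} := by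
      have : supported P {i} = Algebra.adjoin P {(X i : MvPolynomial (Fin m) P)} := by
        unfold supported
        rw [Set.image_singleton]
      rwa [this] at hg
    rw [Algebra.adjoin_singleton_eq_range_aeval] at h1
    obtain ⟨p, hp⟩ := h1
    have hp' : Polynomial.aeval (X i : MvPolynomial (Fin m) P) p = g := hp
    have hp0 : p ≠ 0 := by
      rintro rfl
      rw [map_zero] at hp'
      exact hg0 hp'.symm
    obtain ⟨a, b, hb, hd⟩ := exists_dvd hp0
    refine ⟨X i ^ a, X i ^ b, (pw_iff i _).2 ⟨a, rfl⟩, (pw_iff i _).2 ⟨b, rfl⟩, ?_, ?_⟩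
    · intro h
      have h2 := congrArg (evc (m := m) (0 : P)) h
      rw [map_pow, evc_X, zero_pow hb.ne', map_one] at h2
      exact zero_ne_one h2
    · have h3 := map_dvd (Polynomial.aeval (X i : MvPolynomial (Fin m) P)) hd
      rw [hp', map_mul, map_sub, map_pow, map_pow, map_one, Polynomial.aeval_X] at h3
      exact h3

end Pool.Agent.W762.LH
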